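import Pool.Agent.W795.HE.Pub
import Pool.Agent.W597.HE.It
import Pool.Agent.W991.HE.Tp
import Pool.Agent.W52.TQ.Univ
import Pool.Agent.W405.HE.Cmp
import Pool.Agent.W701.HE.Reg
import Pool.Agent.W933.HE.ShiftCont
import Pool.Agent.W451.HE.Dim

/-!
The singular times of type I with a given constant have box dimension less than `1/2`.
-/

set_option autoImplicit false

open MeasureTheory Set
open scoped InnerProductSpace ENNReal ContDiff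

namespace Pool.Agent.Results.MP_fd8964_an.DimensionTypeI

open H772R2.NS.Pub Pool.Agent.W795.TQ
open Pool.Agent.W795.HE (StrongEnergy RegularTime)

/-- For every `k ≥ 0` there is `θ < 1/2`, depending on `k` only, with the following property. Let
`u` be a Leray-Hopf solution on `[0,T]` with the strong energy inequality, in a bounded open set
`Ω`, with viscosity `ν` and force `⟨f(t), φ⟩ = (F(t), ∇φ)`, `F ∈ H¹(0,T; L²)`; `G = ∇u`. Let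
`h₀ > 0`. The set of the singular times `τ ∈ [h₀,T]` for which
`∫_{τ-h}^τ ‖u(t) - u(τ)‖² dt ≤ k² ν^{5/2} h^{3/2}` for all `h ∈ (0,h₀]`, or
`∫_{τ-h}^τ ‖∇u(t)‖² dt ≤ k ν^{3/2} h^{1/2}` for all `h ∈ (0,h₀]`, is covered by at most `A r^{-θ}`
intervals of length `r`, for all `r ∈ (0,1]`. -/
theorem result : ∀ k : ℝ, 0 ≤ k → ∃ θ : ℝ, 0 ≤ θ ∧ θ < 1 / 2 ∧
    ∀ (Ω : Set R3), IsOpen Ω → Bornology.IsBounded Ω → ∀ (ν T : ℝ), 0 < ν → 0 < T →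
    ∀ (F F' : ℝ → L2 Ω Mat), IsH1 T F F' →
    ∀ (u : ℝ → L2 Ω R3) (G : ℝ → L2 Ω Mat), IsLerayHopf Ω ν T F u G → StrongEnergy ν T F u G →
    ∀ h0 : ℝ, 0 < h0 → ∃ A : ℝ, ∀ r : ℝ, 0 < r → r ≤ 1 → ∃ P : Finset ℝ,
      (P.card : ℝ) ≤ A * r ^ (-θ) ∧
      {τ : ℝ | τ ∈ Icc h0 T ∧ ¬ RegularTime T G τ ∧
        ((∀ h : ℝ, 0 < h → h ≤ h0 →
          ∫ t in (τ - h)..τ, ‖u t - u τ‖ ^ 2 ≤ k ^ 2 * ν ^ (5 / 2 : ℝ) * h ^ (3 / 2 : ℝ)) ∨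
        ∀ h : ℝ, 0 < h → h ≤ h0 →
          ∫ t in (τ - h)..τ, ‖G t‖ ^ 2 ≤ k * ν ^ (3 / 2 : ℝ) * Real.sqrt h)}
        ⊆ ⋃ p ∈ P, Icc p (p + r) := by
  intro k hk
  obtain ⟨θ, hθ0, hθ, h⟩ := Pool.Agent.W795.HE.c_mid Pool.Agent.W597.HE.proof
    Pool.Agent.W991.HE.proof_tp (Pool.Agent.W701.HE.proof Pool.Agent.W405.HE.Cmp.proof)
    Pool.Agent.W933.HE.proof_shift Pool.Agent.W451.HE.proof Pool.Agent.W52.TQ.proof_univ k hk
  exact ⟨θ, hθ0, hθ, fun Ω hΩ hb ν T hν hT F F' hF u G L hSE h0 hh0 =>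
    h Ω hΩ hb ν T hν hT F F' hF.memLp hF.prim u G L hSE h0 hh0⟩

end Pool.Agent.Results.MP_fd8964_an.DimensionTypeI
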