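import Pool.Agent.W795.ES.Pub
import Pool.Agent.W12.TQ.Iter
import Pool.Agent.W347.TQ.Ode
import Pool.Agent.W52.TQ.Univ
import Pool.Agent.W775.TQ.Dtp
import Pool.Agent.W503.TQ.Est1
import Pool.Agent.W790.TQ.Est2
import Pool.Agent.W52.TQ.Loc
import Pool.Agent.W503.TQ.Uni
import Pool.Agent.W271.ES.Pt
import Pool.Agent.W918.ES.Gr
import Pool.Agent.W91.ES.Conc

/-!
Before a first singular time of a Leray-Hopf solution of the Navier-Stokes equations in a bounded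
domain the energy of perturbations of arbitrarily small scale must be amplified: the integral of the
maximal instantaneous growth rate is at least `(3/4) log 1/(τ - t) - C`.
-/

set_option autoImplicit false

open MeasureTheory Set
open scoped InnerProductSpace ENNReal ContDiff

namespace Pool.Agent.Results.MP_fd8964_an.EnergyStability

open H772R2.NS.Pub Pool.Agent.W795.TQ
open Pool.Agent.W795.ES (stretch)

/-- Let `u` be a Leray-Hopf solution on `[0,T]` with admissible data in a bounded open set `Ω`.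
Then either `u` is a strong solution on `[0,T]`, or there is a first singular time `τ ∈ (0,T]` with
the following property. Let `ψ₁, …, ψₙ` be divergence free test fields, `δ > 0`, `0 ≤ s < τ`. There
is a number `M` such that, whenever `Λ ≥ 0` is a locally integrable function on `[0,τ)` for which,
for almost every `t`, the energy inequality
`-∫ v·(v·∇)u(t) ≤ (1 - δ) ν ‖∇v‖² + Λ(t) ‖v‖²` holds for all `v ∈ V` orthogonal to
`ψ₁, …, ψₙ`, one has `∫_s^t Λ ≥ (3/4) log (1/(τ - t)) - M` for `t < τ` arbitrarily close to `τ`. -/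
theorem result :
    ∀ (Ω : Set R3), IsOpen Ω → Bornology.IsBounded Ω → ∀ (ν T : ℝ), 0 < ν → 0 < T →
    ∀ (F F' : ℝ → L2 Ω Mat), IsH1 T F F' →
    ∀ (u : ℝ → L2 Ω R3) (G : ℝ → L2 Ω Mat), IsLerayHopf Ω ν T F u G →
    ∀ z0 : L2 Ω Mat, (u 0, z0) ∈ H1graph Ω →
    (∃ g : L2 Ω R3, ∀ φ, IsTest Ω φ → rhs ν (u 0) z0 (F 0) φ = ∫ x in Ω, ⟪g.fn x, φ x⟫_ℝ) →
    (∃ u' G1 G', IsStrong Ω ν T F u u' G1 G') ∨
    ∃ τ ∈ Ioc 0 T, (∀ t ∈ Ioo 0 τ, ∃ u' G1 G', IsStrong Ω ν t F u u' G1 G') ∧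
      ∀ (n : ℕ) (ψ : Fin n → R3 → R3), (∀ j, IsTest Ω (ψ j)) → ∀ δ : ℝ, 0 < δ →
      ∀ s ∈ Ico 0 τ, ∃ M : ℝ, ∀ Λ : ℝ → ℝ, (∀ t, 0 ≤ Λ t) →
        (∀ t ∈ Ioo 0 τ, IntervalIntegrable Λ volume 0 t) →
        (∀ᵐ t ∂(volume.restrict (Ioc 0 τ)), ∀ p ∈ H1graph Ω,
          (∀ j, (∫ x in Ω, ⟪p.1.fn x, ψ j x⟫_ℝ) = 0) →
          -stretch (G t) p.1 ≤ (1 - δ) * ν * ‖p.2‖ ^ 2 + Λ t * ‖p.1‖ ^ 2) →
        ∀ t0 < τ, ∃ t ∈ Ioo t0 τ, s < t ∧
          3 / 4 * Real.log (1 / (τ - t)) - M ≤ ∫ r in s..t, Λ r := by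
  intro Ω hΩ hb ν T hν hT F F' hF u G L z0 h0 hg
  obtain ⟨g, hg'⟩ := hg
  rcases Pool.Agent.W795.ES.es_mid Pool.Agent.W91.ES.proof
    (Pool.Agent.W918.ES.proof Pool.Agent.W271.ES.proof) Pool.Agent.W12.TQ.proof
    Pool.Agent.W347.TQ.proof_ode
    Pool.Agent.W775.TQ.proof_dtp Pool.Agent.W503.TQ.proof_est1 Pool.Agent.W790.TQ.proof_est2
    Pool.Agent.W52.TQ.proof_loc Pool.Agent.W503.TQ.proof_uni Pool.Agent.W52.TQ.proof_univ
    Ω hΩ hb ν T hν hT F F' hF.memLp hF.prim u G L.meas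
    (by
      filter_upwards [L.grad] with t ht
      exact mem_pub.mpr ht) L.gradL2
    (fun φ hφ t ht => L.eqn φ ((isTest_iff φ).mpr hφ) t ht) L.energy z0 (mem_pub.mpr h0)
    ⟨g, fun φ hφ => hg' φ ((isTest_iff φ).mpr hφ)⟩ with h1 | ⟨τ, hτ, h1, h2⟩
  · exact Or.inl h1
  refine Or.inr ⟨τ, hτ, h1, ?_⟩
  intro n ψ hψ δ hδ s hs
  obtain ⟨M, hM⟩ := h2 n ψ (fun j => (isTest_iff (ψ j)).mp (hψ j)) δ hδ s hs
  refine ⟨M, fun Λ hΛ0 hΛi hform t0 ht0 => hM Λ hΛ0 hΛi ?_ t0 ht0⟩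
  filter_upwards [hform] with t ht
  intro p hp hpq
  exact ht p (mem_pub.mp hp) hpq

end Pool.Agent.Results.MP_fd8964_an.EnergyStability
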