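import Pool.Agent.W795.TQ.DPub
import Pool.Agent.W12.TQ.Iter
import Pool.Agent.W347.TQ.Ode
import Pool.Agent.W52.TQ.Univ
import Pool.Agent.W775.TQ.Dtp
import Pool.Agent.W503.TQ.Est1
import Pool.Agent.W790.TQ.Est2
import Pool.Agent.W52.TQ.Loc
import Pool.Agent.W503.TQ.Uni

/-!
The critical modulus of continuity in time, with values in `L²`, at the first singular time of a
Leray-Hopf solution of the Navier-Stokes equations in a bounded domain.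
-/

open MeasureTheory Set
open scoped InnerProductSpace ENNReal ContDiff

namespace Pool.Agent.Results.MP_fd8964_an.HoelderQuarter

open H772R2.NS.Pub Pool.Agent.W795.TQ

/-- There is an absolute constant `k > 0` with the following property. Let `u` be a Leray-Hopf
solution on `[0,T]` with admissible data in a bounded open set `Ω`. Then either `u` is a strong
solution on `[0,T]`, or there is a first singular time `τ ∈ (0,T]`: `u` is a strong solution on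
`[0,t]` for all `t < τ`, and for every `U ∈ L²(Ω)` the inequality
`∫_{τ-h}^τ ‖u(t) - U‖² dt > k ν^{5/2} h^{3/2}` holds for arbitrarily small `h > 0`. -/
theorem result :
    ∃ k : ℝ, 0 < k ∧
    ∀ (Ω : Set R3), IsOpen Ω → Bornology.IsBounded Ω → ∀ (ν T : ℝ), 0 < ν → 0 < T →
    ∀ (F F' : ℝ → L2 Ω Mat), IsH1 T F F' →
    ∀ (u : ℝ → L2 Ω R3) (G : ℝ → L2 Ω Mat), IsLerayHopf Ω ν T F u G →
    ∀ z0 : L2 Ω Mat, (u 0, z0) ∈ H1graph Ω →
    (∃ g : L2 Ω R3, ∀ φ, IsTest Ω φ → rhs ν (u 0) z0 (F 0) φ = ∫ x in Ω, ⟪g.fn x, φ x⟫_ℝ) →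
    (∃ u' G1 G', IsStrong Ω ν T F u u' G1 G') ∨
    ∃ τ ∈ Ioc 0 T, (∀ t ∈ Ioo 0 τ, ∃ u' G1 G', IsStrong Ω ν t F u u' G1 G') ∧
      ∀ (U : L2 Ω R3) (h0 : ℝ), 0 < h0 → h0 ≤ τ → ∃ h : ℝ, 0 < h ∧ h ≤ h0 ∧
        k * ν ^ (5 / 2 : ℝ) * h ^ (3 / 2 : ℝ) < ∫ t in (τ - h)..τ, ‖u t - U‖ ^ 2 := by
  obtain ⟨k, hk, hk'⟩ := dmid Pool.Agent.W12.TQ.proof Pool.Agent.W347.TQ.proof_ode
    Pool.Agent.W775.TQ.proof_dtp Pool.Agent.W503.TQ.proof_est1 Pool.Agent.W790.TQ.proof_est2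
    Pool.Agent.W52.TQ.proof_loc Pool.Agent.W503.TQ.proof_uni Pool.Agent.W52.TQ.proof_univ
  refine ⟨k, hk, ?_⟩
  intro Ω hΩ hb ν T hν hT F F' hF u G L z0 h0 hg
  obtain ⟨g, hg'⟩ := hg
  exact hk' Ω hΩ hb ν T hν hT F F' hF.memLp hF.prim u G L.meas
    (by
      filter_upwards [L.grad] with t ht
      exact mem_pub.mpr ht) L.gradL2
    (fun φ hφ t ht => L.eqn φ ((isTest_iff φ).mpr hφ) t ht) L.energy z0 (mem_pub.mpr h0)
    ⟨g, fun φ hφ => hg' φ ((isTest_iff φ).mpr hφ)⟩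

end Pool.Agent.Results.MP_fd8964_an.HoelderQuarter
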