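import Pool.Agent.W795.HE.Pub
import Pool.Agent.W597.HE.It
import Pool.Agent.W991.HE.Tp
import Pool.Agent.W52.TQ.Univ

/-!
The rate of type I for the dissipation of a Leray-Hopf solution before a time `τ`, in a bounded
domain, and the left Hoelder continuity of order `1/4` at `τ` with values in `L²` are equivalent.
-/

set_option autoImplicit false

open MeasureTheory Set
open scoped InnerProductSpace ENNReal ContDiff

namespace Pool.Agent.Results.MP_fd8964_an.HoelderTypeI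

open H772R2.NS.Pub Pool.Agent.W795.TQ
open Pool.Agent.W795.HE (StrongEnergy)

/-- Let `u` be a Leray-Hopf solution on `[0,T]` with the strong energy inequality, in a bounded
open set `Ω`, with force `⟨f(t), φ⟩ = (F(t), ∇φ)`, `F ∈ H¹(0,T; L²)`; `G = ∇u`. For every
`τ ∈ (0,T]` the type I rate `∫_t^τ ‖∇u‖² = O(√(τ - t))` holds if and only if `u`, with values in
`L²(Ω)`, is left Hoelder continuous of order `1/4` at `τ`, if and only if it is so in quadratic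
mean, `∫_t^τ ‖u(s) - u(τ)‖² ds = O((τ - t)^{3/2})`, and if and only if the energy is left Hoelder
continuous of order `1/2` at `τ` in the sense that `‖u(t)‖² - ‖u(τ)‖² ≤ M √(τ - t)`. -/
theorem result :
    ∀ (Ω : Set R3), IsOpen Ω → Bornology.IsBounded Ω → ∀ (ν T : ℝ), 0 < ν → 0 < T →
    ∀ (F F' : ℝ → L2 Ω Mat), IsH1 T F F' →
    ∀ (u : ℝ → L2 Ω R3) (G : ℝ → L2 Ω Mat), IsLerayHopf Ω ν T F u G → StrongEnergy ν T F u G →
    ∀ τ ∈ Ioc 0 T,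
      ((∃ M : ℝ, ∀ t ∈ Icc 0 τ, ∫ s in t..τ, ‖G s‖ ^ 2 ≤ M * Real.sqrt (τ - t)) ↔
        ∃ M : ℝ, ∀ t ∈ Icc 0 τ, ‖u t - u τ‖ ≤ M * (τ - t) ^ (1 / 4 : ℝ)) ∧
      ((∃ M : ℝ, ∀ t ∈ Icc 0 τ, ∫ s in t..τ, ‖G s‖ ^ 2 ≤ M * Real.sqrt (τ - t)) ↔
        ∃ M : ℝ, ∀ t ∈ Icc 0 τ, ∫ s in t..τ, ‖u s - u τ‖ ^ 2 ≤ M * (τ - t) ^ (3 / 2 : ℝ)) ∧
      ((∃ M : ℝ, ∀ t ∈ Icc 0 τ, ∫ s in t..τ, ‖G s‖ ^ 2 ≤ M * Real.sqrt (τ - t)) ↔
        ∃ M : ℝ, ∀ t ∈ Icc 0 τ, ‖u t‖ ^ 2 - ‖u τ‖ ^ 2 ≤ M * Real.sqrt (τ - t)) := by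
  intro Ω hΩ hb ν T hν hT F F' hF u G L hSE τ hτ
  have key := Pool.Agent.W795.HE.a_mid Pool.Agent.W597.HE.proof Pool.Agent.W991.HE.proof_tp
    Pool.Agent.W991.HE.proof_grw Pool.Agent.W52.TQ.proof_univ Ω hΩ hb ν T hν hT F F' hF.memLp
    hF.prim u G L hSE τ hτ
  exact ⟨key.out 2 0, key.out 2 1, key.out 2 3⟩

end Pool.Agent.Results.MP_fd8964_an.HoelderTypeI
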